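import Pool.Agent.Helper37.RG3.Goals

set_option autoImplicit false
set_option linter.unusedSectionVars false

/-!
Packet TRG of MP_0c2bb8_co: contraction of one side of a tight cut.
-/

namespace Pool.Agent.Helper31.RG3

open Finset Pool.Agent.Helper37.RG3

section

variable {V : Type} [Fintype V] [DecidableEq V]

lemma cq_left (w : V → V → ℕ) (X : Finset V) (y₀ : V) (hy : y₀ ∉ X) {u : V} (hu : u ∈ X) (v : V) :
    cq w X y₀ u v = (if v ∈ X then w u v else 0) + (if v = y₀ then bt w {u} Xᶜ else 0) := by
  unfold cq
  have huy : u ≠ y₀ := fun h => hy (h ▸ hu)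
  by_cases hv : v ∈ X
  · have hvy : v ≠ y₀ := fun h => hy (h ▸ hv)
    simp [hu, hv, hvy]
  · by_cases hvy : v = y₀
    · simp [hu, hv, hvy, hy]
    · simp [hu, hv, hvy]

lemma cq_y (w : V → V → ℕ) (X : Finset V) (y₀ : V) (hy : y₀ ∉ X) (v : V) :
    cq w X y₀ y₀ v = if v ∈ X then bt w {v} Xᶜ else 0 := by
  unfold cq
  simp [hy]

lemma cq_out (w : V → V → ℕ) (X : Finset V) (y₀ : V) {u : V} (hu : u ∉ insert y₀ X) (v : V) :
    cq w X y₀ u v = 0 := by
  rw [Finset.mem_insert, not_or] at hu
  unfold cq
  simp [hu.1, hu.2]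

lemma cq_symm (w : V → V → ℕ) (hs : ∀ u v, w u v = w v u) (X : Finset V) (y₀ : V) (hy : y₀ ∉ X)
    (u v : V) : cq w X y₀ u v = cq w X y₀ v u := by
  by_cases hu : u ∈ insert y₀ X
  · by_cases hv : v ∈ insert y₀ X
    · rw [Finset.mem_insert] at hu hv
      rcases hu with rfl | hu
      · rcases hv with rfl | hv
        · rfl
        · rw [cq_y w X u hy, cq_left w X u hy hv]
          simp [hy, hv]
      · rcases hv with rfl | hv
        · rw [cq_y w X v hy, cq_left w X v hy hu]
          simp [hy, hu]
        · rw [cq_left w X y₀ hy hv, cq_left w X y₀ hy hu]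
          have h1 : u ≠ y₀ := fun h => hy (h ▸ hu)
          have h2 : v ≠ y₀ := fun h => hy (h ▸ hv)
          simp [hu, hv, h1, h2, hs u v]
    · rw [cq_out w X y₀ hv]
      rw [Finset.mem_insert] at hu
      rw [Finset.mem_insert, not_or] at hv
      rcases hu with rfl | hu
      · rw [cq_y w X u hy]; simp [hv.2]
      · rw [cq_left w X y₀ hy hu]; simp [hv.1, hv.2]
  · rw [cq_out w X y₀ hu]
    by_cases hv : v ∈ insert y₀ X
    · rw [Finset.mem_insert] at hv
      rw [Finset.mem_insert, not_or] at hu
      rcases hv with rfl | hv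
      · rw [cq_y w X v hy]; simp [hu.2]
      · rw [cq_left w X y₀ hy hv]; simp [hu.1, hu.2]
    · rw [cq_out w X y₀ hv]

/-- cut of a subset of `X`. -/
lemma ct_sub (w : V → V → ℕ) (X : Finset V) (y₀ : V) (hy : y₀ ∉ X) (W : Finset V) (hW : W ⊆ X) :
    ct (cq w X y₀) W = ct w W := by
  unfold ct bt
  refine Finset.sum_congr rfl fun a ha => ?_
  have haX := hW ha
  rw [Finset.sum_congr rfl fun b _ => cq_left w X y₀ hy haX b, Finset.sum_add_distrib]
  have h1 : ∑ b ∈ Wᶜ, (if b = y₀ then bt w {a} Xᶜ else 0) = bt w {a} Xᶜ := by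
    rw [Finset.sum_ite_eq' Wᶜ y₀, if_pos]
    rw [Finset.mem_compl]
    exact fun h => hy (hW h)
  have h2 : ∑ b ∈ Wᶜ, (if b ∈ X then w a b else 0) = ∑ b ∈ Wᶜ.filter (· ∈ X), w a b := by
    rw [Finset.sum_filter]
  have h3 : bt w {a} Xᶜ = ∑ b ∈ Wᶜ.filter (· ∉ X), w a b := by
    rw [bt_singleton_left]
    refine Finset.sum_congr ?_ fun _ _ => rfl
    ext b
    simp only [Finset.mem_compl, Finset.mem_filter]
    exact ⟨fun h => ⟨fun h' => h (hW h'), h⟩, fun h => h.2⟩
  rw [h1, h2, h3]
  exact Finset.sum_filter_add_sum_filter_not _ _ _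

end

/-- **Packet TRG**. -/
theorem trg : TRG := by
  intro V _ _ U X w r y₀ h hXU hodd hct hy
  have hs := cq_symm w h.symm X y₀ hy
  refine ⟨hs, ?_, ?_, ?_, ?_⟩
  · intro u
    by_cases hu : u ∈ insert y₀ X
    · rw [Finset.mem_insert] at hu
      rcases hu with rfl | hu
      · rw [cq_y w X u hy]; simp [hy]
      · rw [cq_left w X y₀ hy hu, h.irr]
        have h1 : u ≠ y₀ := fun h => hy (h ▸ hu)
        simp [h1]
    · rw [cq_out w X y₀ hu]
  · intro u v huv
    by_contra hu
    exact huv (cq_out w X y₀ hu v)
  · intro u hu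
    rw [Finset.mem_insert] at hu
    rcases hu with rfl | hu
    · rw [Finset.sum_congr rfl fun v _ => cq_y w X u hy v]
      rw [← hct, Finset.sum_ite_mem, Finset.univ_inter]
      unfold ct
      simp only [bt_singleton_left]
      rfl
    · rw [Finset.sum_congr rfl fun v _ => cq_left w X y₀ hy hu v, Finset.sum_add_distrib,
        Finset.sum_ite_mem, Finset.univ_inter, Finset.sum_ite_eq' univ y₀, if_pos (mem_univ _),
        bt_singleton_left, ← h.deg u (hXU hu)]
      exact Finset.sum_add_sum_compl X _
  · intro W hW hWodd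
    by_cases hyW : y₀ ∈ W
    · set W' := insert y₀ X \ W with hW'
      have hsub : W' ⊆ X := by
        intro v hv
        rw [hW', Finset.mem_sdiff, Finset.mem_insert] at hv
        rcases hv.1 with rfl | h1
        · exact absurd hyW hv.2
        · exact h1
      have hcard : W'.card = X.card + 1 - W.card := by
        rw [hW', Finset.card_sdiff_of_subset hW, Finset.card_insert_of_notMem hy]
      have hle : W.card ≤ X.card + 1 := by
        rw [← Finset.card_insert_of_notMem hy]
        exact Finset.card_le_card hW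
      have hW'odd : Odd W'.card := by
        rw [hcard]
        obtain ⟨k, hk⟩ := hodd
        obtain ⟨l, hl⟩ := hWodd
        refine ⟨k - l, ?_⟩
        omega
      have e1 : ∀ A B B' : Finset V, B ∩ insert y₀ X = B' ∩ insert y₀ X →
          bt (cq w X y₀) A B = bt (cq w X y₀) A B' := by
        have key : ∀ A C : Finset V,
            bt (cq w X y₀) A C = bt (cq w X y₀) A (C ∩ insert y₀ X) := by
          intro A C
          unfold bt
          refine Finset.sum_congr rfl fun a _ => ?_
          symm
          refine Finset.sum_subset Finset.inter_subset_left fun b hb hb' => ?_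
          rw [hs]
          apply cq_out
          intro h1
          exact hb' (Finset.mem_inter.2 ⟨hb, h1⟩)
        intro A B B' hBB
        rw [key A B, key A B', hBB]
      have e2 : ct (cq w X y₀) W = bt (cq w X y₀) W W' := by
        unfold ct
        apply e1
        ext v
        rw [hW']
        simp only [Finset.mem_inter, Finset.mem_compl, Finset.mem_sdiff]
        tauto
      have e3 : ct (cq w X y₀) W' = bt (cq w X y₀) W' W := by
        unfold ct
        apply e1
        ext v
        have := @hW v
        rw [hW']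
        simp only [Finset.mem_inter, Finset.mem_compl, Finset.mem_sdiff]
        tauto
      rw [e2, bt_comm _ hs, ← e3, ct_sub w X y₀ hy W' hsub]
      exact h.cut W' (hsub.trans hXU) hW'odd
    · have hsub : W ⊆ X := by
        intro v hv
        have := hW hv
        rw [Finset.mem_insert] at this
        rcases this with rfl | h1
        · exact absurd hv hyW
        · exact h1
      rw [ct_sub w X y₀ hy W hsub]
      exact h.cut W (hsub.trans hXU) hWodd

end Pool.Agent.Helper31.RG3
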